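import Mathlib

open Finset

namespace Pool.Agent.H360_RD

universe u

section Defs
variable {V : Type u} [Fintype V] [DecidableEq V] (G : SimpleGraph V)

/-- A matching of `G`: a set of edges of `G`, no two of which share a vertex. -/
def IsMatching (M : Finset (Sym2 V)) : Prop :=
  (∀ e ∈ M, e ∈ G.edgeSet) ∧ ∀ e ∈ M, ∀ f ∈ M, ∀ v : V, v ∈ e → v ∈ f → e = f

/-- A maximum matching of `G`: one with the most edges. -/
def IsMaxMatching (M : Finset (Sym2 V)) : Prop :=
  IsMatching G M ∧ ∀ M' : Finset (Sym2 V), IsMatching G M' → M'.card ≤ M.card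

/-- `C` is the edge set of an odd cycle of `G`. -/
def IsOddCycle (C : Finset (Sym2 V)) : Prop :=
  ∃ (v : V) (c : G.Walk v v), c.IsCycle ∧ Odd c.length ∧ c.edges.toFinset = C

variable {G}

/-- The closed walk `c` is an `M`-blossom with base `b`: a cycle of length `2t+1` exactly `t` of whose edges
lie in `M`, none of them at `b`. -/
def IsBlossom (M : Finset (Sym2 V)) {b : V} (c : G.Walk b b) : Prop :=
  c.IsCycle ∧ ∃ t : ℕ, c.length = 2 * t + 1 ∧ (c.edges.toFinset ∩ M).card = t ∧
    ∀ e ∈ c.edges.toFinset ∩ M, b ∉ e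

/-- `P` is an `M`-stem of the blossom `c` with base `b`: a path of even length, alternating with respect to `M`,
that joins `b` to a vertex `u` uncovered by `M` and meets the blossom only at `b`. -/
def IsStem (M : Finset (Sym2 V)) {b u : V} (c : G.Walk b b) (P : G.Walk u b) : Prop :=
  P.IsPath ∧ Even P.length ∧ (∀ e ∈ M, u ∉ e) ∧
    P.edges.IsChain (fun e f => (e ∈ M ↔ f ∉ M)) ∧ ∀ v ∈ P.support, v ∈ c.support → v = b

variable (G)

/-- The reach set of the cycle with edge set `C`: the union of the vertex sets of the `M`-flowers whose blossom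
is `C`, over all maximum matchings `M`. -/
def reach (C : Finset (Sym2 V)) : Set V :=
  {x | ∃ (M : Finset (Sym2 V)) (b u : V) (c : G.Walk b b) (P : G.Walk u b), IsMaxMatching G M ∧
    c.edges.toFinset = C ∧ IsBlossom M c ∧ IsStem M c P ∧ (x ∈ c.support ∨ x ∈ P.support)}

/-- `G` is `R`-disjoint. -/
def RDisjoint : Prop :=
  (∃ C, IsOddCycle G C) ∧ (∀ C, IsOddCycle G C → (reach G C).Nonempty) ∧
    ∀ C C', IsOddCycle G C → IsOddCycle G C' → C ≠ C' → Disjoint (reach G C) (reach G C')

/-- The bipartite part of the flower decomposition: the vertices in no reach set. -/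
def bip : Set V := {x | ∀ C, IsOddCycle G C → x ∉ reach G C}

end Defs

end Pool.Agent.H360_RD
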