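import Pool.Agent.helper360_rd.Defs

set_option linter.unusedSectionVars false
set_option linter.deprecated false

/-! Proof of the determinant factorisation of `R`-disjoint graphs: matchings as involutions, switching along
alternating paths, the sets of even vertices, and the comparison of maximum matchings. -/

namespace Pool.Agent.H360_RD
open Finset
universe u
variable {V : Type u} [Fintype V] [DecidableEq V] {G : SimpleGraph V}

/-- A matching as an involution. -/
structure Mt (G : SimpleGraph V) (m : V → V) : Prop where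
  inv : ∀ v, m (m v) = v
  adj : ∀ v, m v ≠ v → G.Adj v (m v)

def fxs (m : V → V) : Finset V := univ.filter (fun v => m v = v)

def ed (m : V → V) : Finset (Sym2 V) := (univ.filter (fun v => m v ≠ v)).image (fun v => s(v, m v))

def Mx (G : SimpleGraph V) (m : V → V) : Prop := Mt G m ∧ ∀ m', Mt G m' → (fxs m).card ≤ (fxs m').card

theorem mem_ed {m : V → V} {e : Sym2 V} : e ∈ ed m ↔ ∃ v, m v ≠ v ∧ s(v, m v) = e := by
  simp [ed]

theorem Mt.mem_ed {m : V → V} (hm : Mt G m) {p q : V} : s(p, q) ∈ ed m ↔ m p = q ∧ p ≠ q := by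
  rw [H360_RD.mem_ed]
  constructor
  · rintro ⟨v, hv, h⟩
    rw [Sym2.eq_iff] at h
    rcases h with ⟨rfl, rfl⟩ | ⟨rfl, rfl⟩
    · exact ⟨rfl, hv.symm⟩
    · exact ⟨hm.inv _, hv⟩
  · rintro ⟨rfl, h⟩
    exact ⟨p, h.symm, rfl⟩

theorem Mt.cnt {m : V → V} (hm : Mt G m) (F : Finset (Sym2 V)) :
    (univ.filter (fun v => m v ≠ v ∧ s(v, m v) ∈ F)).card = 2 * (F ∩ ed m).card := by
  classical
  rw [Finset.card_eq_sum_card_fiberwise (f := fun v => s(v, m v)) (t := F ∩ ed m)]
  · rw [Finset.sum_const_nat (m := 2), mul_comm]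
    intro e he
    rw [mem_inter, H360_RD.mem_ed] at he
    obtain ⟨heF, v, hv, rfl⟩ := he
    have : (univ.filter (fun v => m v ≠ v ∧ s(v, m v) ∈ F)).filter (fun a => s(a, m a) = s(v, m v)) = {v, m v} := by
      ext a
      simp only [mem_filter, mem_univ, true_and, mem_insert, mem_singleton, Sym2.eq_iff]
      constructor
      · rintro ⟨_, ⟨h, _⟩ | ⟨h, _⟩⟩
        · exact Or.inl h
        · exact Or.inr h
      · rintro (rfl | rfl)
        · exact ⟨⟨hv, heF⟩, Or.inl ⟨rfl, rfl⟩⟩
        · refine ⟨⟨?_, ?_⟩, Or.inr ⟨rfl, hm.inv _⟩⟩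
          · rw [hm.inv]; exact hv.symm
          · rw [hm.inv, Sym2.eq_swap]; exact heF
    rw [this, card_pair hv.symm]
  · intro v hv
    simp only [coe_filter, mem_univ, true_and, Set.mem_setOf_eq] at hv
    simp only [coe_inter, Set.mem_inter_iff, mem_coe, H360_RD.mem_ed]
    exact ⟨hv.2, v, hv.1, rfl⟩

theorem Mt.card_ed {m : V → V} (hm : Mt G m) : 2 * (ed m).card + (fxs m).card = Fintype.card V := by
  have h := hm.cnt univ
  simp only [mem_univ, and_true, univ_inter] at h
  rw [← h, fxs, add_comm, ← Finset.card_univ]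
  exact Finset.card_filter_add_card_filter_not (s := univ) (fun v => m v = v)

theorem Mt.isMatching {m : V → V} (hm : Mt G m) : IsMatching G (ed m) := by
  constructor
  · intro e he
    obtain ⟨v, hv, rfl⟩ := H360_RD.mem_ed.1 he
    exact hm.adj v hv
  · intro e he f hf v hve hvf
    obtain ⟨a, ha, rfl⟩ := H360_RD.mem_ed.1 he
    obtain ⟨b, hb, rfl⟩ := H360_RD.mem_ed.1 hf
    have key : ∀ a, v ∈ s(a, m a) → s(a, m a) = s(v, m v) := by
      intro a h
      rw [Sym2.mem_iff] at h
      rcases h with rfl | rfl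
      · rfl
      · rw [hm.inv, Sym2.eq_swap]
    rw [key a hve, key b hvf]

theorem IsMatching.exists_mt {M : Finset (Sym2 V)} (hM : IsMatching G M) : ∃ m, Mt G m ∧ ed m = M := by
  classical
  have hu : ∀ v w w', s(v, w) ∈ M → s(v, w') ∈ M → w = w' := by
    intro v w w' h h'
    have := hM.2 _ h _ h' v (Sym2.mem_mk_left _ _) (Sym2.mem_mk_left _ _)
    rw [Sym2.eq_iff] at this
    rcases this with ⟨_, h⟩ | ⟨h1, h2⟩
    · exact h
    · rw [h2, ← h1]
  have hne : ∀ v w, s(v, w) ∈ M → v ≠ w := fun v w h => (hM.1 _ h : G.Adj v w).ne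
  set m : V → V := fun v => if h : ∃ w, s(v, w) ∈ M then h.choose else v with hmdef
  have h1 : ∀ v w, s(v, w) ∈ M → m v = w := by
    intro v w h
    have hex : ∃ w, s(v, w) ∈ M := ⟨w, h⟩
    simp only [hmdef, dif_pos hex]
    exact hu _ _ _ hex.choose_spec h
  have h2 : ∀ v, m v ≠ v → s(v, m v) ∈ M := by
    intro v hv
    by_cases hex : ∃ w, s(v, w) ∈ M
    · obtain ⟨w, hw⟩ := hex
      rw [h1 v w hw]; exact hw
    · exact absurd (by simp only [hmdef, dif_neg hex]) hv
  have hm : Mt G m := by
    refine ⟨fun v => ?_, fun v hv => hM.1 _ (h2 v hv)⟩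
    by_cases hv : m v = v
    · rw [hv, hv]
    · apply h1
      rw [Sym2.eq_swap]
      exact h2 v hv
  refine ⟨m, hm, ?_⟩
  ext e
  rw [mem_ed]
  constructor
  · rintro ⟨v, hv, rfl⟩
    exact h2 v hv
  · induction e with
    | _ v w =>
      intro h
      exact ⟨v, by rw [h1 v w h]; exact (hne v w h).symm, by rw [h1 v w h]⟩

theorem Mx.isMax {m : V → V} (hm : Mx G m) : IsMaxMatching G (ed m) := by
  refine ⟨hm.1.isMatching, fun M' hM' => ?_⟩
  obtain ⟨m', hm', rfl⟩ := hM'.exists_mt
  have h1 := hm.1.card_ed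
  have h2 := hm'.card_ed
  have h3 := hm.2 m' hm'
  omega

theorem IsMaxMatching.exists_mx {M : Finset (Sym2 V)} (hM : IsMaxMatching G M) : ∃ m, Mx G m ∧ ed m = M := by
  obtain ⟨m, hm, rfl⟩ := hM.1.exists_mt
  refine ⟨m, ⟨hm, fun m' hm' => ?_⟩, rfl⟩
  have h1 := hm.card_ed
  have h2 := hm'.card_ed
  have h3 := hM.2 _ hm'.isMatching
  omega

end Pool.Agent.H360_RD

namespace Pool.Agent.H360_RD
open Finset
universe u
variable {V : Type u} [Fintype V] [DecidableEq V] {G : SimpleGraph V}

theorem mem_fxs {m : V → V} {v : V} : v ∈ fxs m ↔ m v = v := by simp [fxs]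

/-- switch the matching `m` at the exposed vertex `x` along the edge `xy` -/
def sw (m : V → V) (x y : V) : V → V := fun v =>
  if v = x then y else if v = y then x else if v = m y then v else m v

theorem Mt.sw {m : V → V} (hm : Mt G m) {x y : V} (hx : m x = x) (hxy : G.Adj x y) : Mt G (sw m x y) := by
  have hne : x ≠ y := hxy.ne
  have hyx : m y ≠ x := by
    intro h
    apply hne
    rw [← hm.inv y, h, hx]
  refine ⟨fun v => ?_, fun v hv => ?_⟩
  · unfold H360_RD.sw
    by_cases h1 : v = x
    · simp [h1, hne.symm]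
    by_cases h2 : v = y
    · simp [h2, hne.symm]
    by_cases h3 : v = m y
    · rw [if_neg h1, if_neg h2, if_pos h3, if_neg h1, if_neg h2, if_pos h3]
    · have h4 : m v ≠ x := fun h => h1 (by rw [← hm.inv v, h, hx])
      have h5 : m v ≠ y := fun h => h3 (by rw [← hm.inv v, h])
      have h6 : m v ≠ m y := fun h => h2 (by rw [← hm.inv v, h, hm.inv])
      simp [h1, h2, h3, h4, h5, h6, hm.inv]
  · unfold H360_RD.sw at hv ⊢
    by_cases h1 : v = x
    · simp [h1, hxy]
    by_cases h2 : v = y
    · simp [h2, hne.symm, hxy.symm]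
    by_cases h3 : v = m y
    · rw [if_neg h1, if_neg h2, if_pos h3] at hv
      exact absurd rfl hv
    · rw [if_neg h1, if_neg h2, if_neg h3] at hv ⊢
      exact hm.adj v hv

theorem Mx.ne {m : V → V} (hm : Mx G m) {x y : V} (hx : m x = x) (hxy : G.Adj x y) : m y ≠ y := by
  intro hy
  have h1 := hm.2 _ (hm.1.sw hx hxy)
  have h2 : fxs (sw m x y) ⊂ fxs m := by
    rw [Finset.ssubset_iff_of_subset]
    · refine ⟨x, by simp [fxs, hx], ?_⟩
      rw [mem_fxs]
      simp [sw, hxy.ne.symm]
    · intro v hv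
      rw [mem_fxs] at hv ⊢
      unfold sw at hv
      split_ifs at hv with h3 h4 h5
      · rw [h3, hx]
      · rw [h4, hy]
      · rw [h5, hy, hy]
      · exact hv
  have := Finset.card_lt_card h2
  omega

theorem Mx.sw {m : V → V} (hm : Mx G m) {x y : V} (hx : m x = x) (hxy : G.Adj x y) : Mx G (sw m x y) := by
  refine ⟨hm.1.sw hx hxy, fun m' hm' => le_trans (le_of_eq ?_) (hm.2 m' hm')⟩
  have hy := hm.ne hx hxy
  have hyx : m y ≠ x := by
    intro h
    apply hxy.ne
    rw [← hm.1.inv y, h, hx]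
  have : fxs (H360_RD.sw m x y) = insert (m y) ((fxs m).erase x) := by
    ext v
    simp only [mem_fxs, H360_RD.sw, mem_insert, mem_erase]
    by_cases h1 : v = x
    · simp [h1, hxy.ne.symm, Ne.symm hyx]
    by_cases h2 : v = y
    · simp [h2, hxy.ne, Ne.symm hy, hxy.ne.symm, hy]
    by_cases h3 : v = m y
    · simp [h3, hyx, hy]
    · simp [h1, h2, h3]
  rw [this, card_insert_of_notMem, card_erase_of_mem]
  · have : 0 < (fxs m).card := Finset.card_pos.2 ⟨x, by simp [fxs, hx]⟩
    omega
  · simp [fxs, hx]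
  · simp [fxs, hm.1.inv, Ne.symm hy]

theorem Mx.path {m : V → V} (hm : Mx G m) {f : ℕ → V} (r : ℕ) (hinj : Set.InjOn f {i | i ≤ 2 * r})
    (hadj : ∀ i, i < 2 * r → G.Adj (f i) (f (i + 1))) (h0 : m (f 0) = f 0)
    (hm' : ∀ j < r, m (f (2 * j + 1)) = f (2 * j + 2)) :
    ∃ m', Mx G m' ∧ m' (f (2 * r)) = f (2 * r) ∧ (∀ j < r, m' (f (2 * j + 1)) = f (2 * j)) ∧
      ∀ v, (∀ i ≤ 2 * r, v ≠ f i) → m' v = m v := by
  induction r with
  | zero => exact ⟨m, hm, h0, by simp, fun _ _ => rfl⟩
  | succ r ih =>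
    have hne : ∀ i j, i ≤ 2 * r + 2 → j ≤ 2 * r + 2 → i ≠ j → f i ≠ f j := by
      intro i j hi hj hij h
      exact hij (hinj (by simp; omega) (by simp; omega) h)
    obtain ⟨m', h1, h2, h3, h4⟩ := ih (fun i hi j hj h => hinj (by simp at hi ⊢; omega) (by simp at hj ⊢; omega) h)
      (fun i hi => hadj i (by omega)) (fun j hj => hm' j (by omega))
    have hadj' := hadj (2 * r) (by omega)
    have hy : m' (f (2 * r + 1)) = f (2 * r + 2) := by
      rw [h4, hm' r (by omega)]
      intro i hi
      exact hne _ _ (by omega) (by omega) (by omega)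
    refine ⟨H360_RD.sw m' (f (2 * r)) (f (2 * r + 1)), h1.sw h2 hadj', ?_, ?_, ?_⟩
    · unfold H360_RD.sw
      rw [if_neg, if_neg, if_pos]
      · exact hy.symm
      · exact hne _ _ (by omega) (by omega) (by omega)
      · exact hne _ _ (by omega) (by omega) (by omega)
    · intro j hj
      unfold H360_RD.sw
      rcases Nat.lt_succ_iff_lt_or_eq.1 hj with hj | rfl
      · rw [if_neg, if_neg, if_neg, h3 j hj]
        · rw [hy]
          exact hne _ _ (by omega) (by omega) (by omega)
        · exact hne _ _ (by omega) (by omega) (by omega)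
        · exact hne _ _ (by omega) (by omega) (by omega)
      · rw [if_neg, if_pos rfl]
        exact hne _ _ (by omega) (by omega) (by omega)
    · intro v hv
      unfold H360_RD.sw
      rw [if_neg, if_neg, if_neg, h4]
      · exact fun i hi => hv i (by omega)
      · rw [hy]
        exact hv _ (by omega)
      · exact hv _ (by omega)
      · exact hv _ (by omega)

/-- the vertex set of an edge set -/
def vs (C : Finset (Sym2 V)) : Finset V := univ.filter (fun v => ∃ e ∈ C, v ∈ e)

theorem mem_vs_cycle {b : V} {c : G.Walk b b} (hc : c.IsCycle) {v : V} :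
    v ∈ vs c.edges.toFinset ↔ v ∈ c.support := by
  simp only [vs, mem_filter, mem_univ, true_and, List.mem_toFinset]
  constructor
  · rintro ⟨e, he, hv⟩
    induction e with
    | _ p q =>
      rcases Sym2.mem_iff.1 hv with rfl | rfl
      · exact c.fst_mem_support_of_mem_edges he
      · exact c.snd_mem_support_of_mem_edges he
  · intro hv
    obtain ⟨n, hn, hle⟩ := SimpleGraph.Walk.mem_support_iff_exists_getVert.1 hv
    have h3 := hc.three_le_length
    rcases Nat.lt_or_ge n c.length with h | h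
    · refine ⟨s(c.getVert n, c.getVert (n + 1)), ?_, by rw [← hn]; exact Sym2.mem_mk_left _ _⟩
      rw [← SimpleGraph.Walk.getElem_edges (by simpa using h)]
      exact List.getElem_mem _
    · refine ⟨s(c.getVert 0, c.getVert (0 + 1)), ?_, ?_⟩
      · rw [← SimpleGraph.Walk.getElem_edges (by simp; omega)]
        exact List.getElem_mem _
      · rw [← hn, c.getVert_of_length_le h]
        simp

theorem card_support_cycle {b : V} {c : G.Walk b b} (hc : c.IsCycle) : c.support.toFinset.card = c.length := by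
  have h : c.support.toFinset = c.support.tail.toFinset := by
    ext v
    simp only [List.mem_toFinset]
    have h3 := hc.three_le_length
    rw [SimpleGraph.Walk.mem_support_iff]
    constructor
    · rintro (rfl | h)
      · exact c.end_mem_tail_support hc.not_nil
      · exact h
    · exact Or.inr
  rw [h, List.toFinset_card_of_nodup ((SimpleGraph.Walk.isCycle_def _).1 hc).2.2]
  simp

theorem Mt.isBlossom_iff {m : V → V} (hm : Mt G m) {b : V} {c : G.Walk b b} :
    IsBlossom (ed m) c ↔ c.IsCycle ∧ Odd c.length ∧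
      ∀ v ∈ c.support, v ≠ b → m v ≠ v ∧ s(v, m v) ∈ c.edges.toFinset := by
  set U := univ.filter (fun v => m v ≠ v ∧ s(v, m v) ∈ c.edges.toFinset) with hU
  have h1 : U.card = 2 * (c.edges.toFinset ∩ ed m).card := hm.cnt _
  have hsub : U ⊆ c.support.toFinset := by
    intro v hv
    simp only [hU, mem_filter, mem_univ, true_and, List.mem_toFinset] at hv ⊢
    exact c.fst_mem_support_of_mem_edges hv.2
  have hb : b ∈ c.support.toFinset := by simp
  constructor
  · rintro ⟨hc, t, ht, hA, hbe⟩
    have h2 := card_support_cycle hc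
    refine ⟨hc, ⟨t, ht⟩, ?_⟩
    have hbU : b ∉ U := by
      intro h
      simp only [hU, mem_filter, mem_univ, true_and] at h
      exact hbe s(b, m b) (mem_inter.2 ⟨h.2, H360_RD.mem_ed.2 ⟨b, h.1, rfl⟩⟩) (Sym2.mem_mk_left _ _)
    have hUe : U = c.support.toFinset.erase b := by
      apply Finset.eq_of_subset_of_card_le
      · intro v hv
        exact mem_erase.2 ⟨fun h => hbU (h ▸ hv), hsub hv⟩
      · rw [card_erase_of_mem hb]
        omega
    intro v hv hvb
    have : v ∈ U := by
      rw [hUe]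
      exact mem_erase.2 ⟨hvb, by simpa using hv⟩
    simpa [hU] using this
  · rintro ⟨hc, ⟨t, ht⟩, hv⟩
    have h2 := card_support_cycle hc
    have hUe : c.support.toFinset.erase b ⊆ U := by
      intro v hv'
      rw [mem_erase, List.mem_toFinset] at hv'
      simp only [hU, mem_filter, mem_univ, true_and]
      exact hv v hv'.2 hv'.1
    have h3 := card_le_card hUe
    have h4 := card_le_card hsub
    rw [card_erase_of_mem hb] at h3
    refine ⟨hc, t, ht, by omega, ?_⟩
    have h5 : U = c.support.toFinset.erase b := by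
      symm
      apply Finset.eq_of_subset_of_card_le hUe
      rw [card_erase_of_mem hb]
      omega
    intro e he hbe
    rw [mem_inter, H360_RD.mem_ed] at he
    obtain ⟨he1, v, hv1, rfl⟩ := he
    have h6 : b ∉ U := by rw [h5]; simp
    apply h6
    simp only [hU, mem_filter, mem_univ, true_and]
    rcases Sym2.mem_iff.1 hbe with rfl | rfl
    · exact ⟨hv1, he1⟩
    · rw [hm.inv, Sym2.eq_swap]
      exact ⟨hv1.symm, he1⟩

end Pool.Agent.H360_RD

namespace Pool.Agent.H360_RD
open Finset
universe u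
variable {V : Type u} [Fintype V] [DecidableEq V] {G : SimpleGraph V}

/-- a maximum matching exposing the vertex `b` of the cycle `C` and matching the rest of `C` along `C` -/
structure TA (G : SimpleGraph V) (C : Finset (Sym2 V)) (m : V → V) (b : V) : Prop where
  mx : Mx G m
  mem : b ∈ vs C
  fix : m b = b
  al : ∀ v ∈ vs C, v ≠ b → m v ≠ v ∧ s(v, m v) ∈ C

theorem TA.map_vs {C : Finset (Sym2 V)} {m : V → V} {b : V} (h : TA G C m b) {v : V} (hv : v ∈ vs C) :
    m v ∈ vs C := by
  by_cases hb : v = b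
  · rw [hb, h.fix]; exact h.mem
  · simp only [vs, mem_filter, mem_univ, true_and]
    exact ⟨_, (h.al v hv hb).2, Sym2.mem_mk_right _ _⟩

theorem TA.map_vs_iff {C : Finset (Sym2 V)} {m : V → V} {b : V} (h : TA G C m b) {v : V} :
    m v ∈ vs C ↔ v ∈ vs C :=
  ⟨fun hv => by rw [← h.mx.1.inv v]; exact h.map_vs hv, h.map_vs⟩

/-- an odd cycle can be seen from each of its vertices -/
theorem IsOddCycle.at {C : Finset (Sym2 V)} (hC : IsOddCycle G C) {c : V} (hc : c ∈ vs C) :
    ∃ w : G.Walk c c, w.IsCycle ∧ Odd w.length ∧ w.edges.toFinset = C := by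
  obtain ⟨v, w, hw, ho, rfl⟩ := hC
  rw [mem_vs_cycle hw] at hc
  refine ⟨w.rotate c hc, hw.rotate hc, by simpa using ho, ?_⟩
  ext e
  simp only [List.mem_toFinset]
  exact (w.rotate_edges c hc).mem_iff

theorem TA.rot {C : Finset (Sym2 V)} {m : V → V} {b : V} (hC : IsOddCycle G C) (h : TA G C m b) {c : V}
    (hc : c ∈ vs C) : ∃ m', TA G C m' c ∧ ∀ v, v ∉ vs C → m' v = m v := by
  classical
  obtain ⟨w, hw, ⟨t, ht⟩, hwC⟩ := hC.at hc
  set f := w.getVert with hf
  have hinj : ∀ i j, i ≤ 2 * t → j ≤ 2 * t → f i = f j → i = j := by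
    intro i j hi hj hij
    exact hw.getVert_injOn' (by simp; omega) (by simp; omega) hij
  have hK : ∀ v, v ∈ vs C ↔ ∃ i ≤ 2 * t, f i = v := by
    intro v
    rw [← hwC, mem_vs_cycle hw, SimpleGraph.Walk.mem_support_iff_exists_getVert]
    constructor
    · rintro ⟨n, hn, hle⟩
      rcases Nat.lt_or_ge n (2 * t + 1) with h1 | h1
      · exact ⟨n, by omega, hn⟩
      · refine ⟨0, by omega, ?_⟩
        rw [← hn, w.getVert_of_length_le (by omega)]
        simp [hf]
    · rintro ⟨i, hi, rfl⟩
      exact ⟨i, rfl, by omega⟩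
  have hfK : ∀ i, i ≤ 2 * t → f i ∈ vs C := fun i hi => (hK _).2 ⟨i, hi, rfl⟩
  have hadj : ∀ i, i ≤ 2 * t → s(f i, f (i + 1)) ∈ C := by
    intro i hi
    rw [← hwC, List.mem_toFinset, ← SimpleGraph.Walk.getElem_edges (by simp; omega)]
    exact List.getElem_mem _
  have hCG : ∀ e ∈ C, e ∈ G.edgeSet := by
    intro e he
    rw [← hwC, List.mem_toFinset] at he
    exact w.edges_subset_edgeSet he
  have hf0 : f 0 = c := by simp [hf]
  choose! idx hidx1 hidx2 using fun v (hv : v ∈ vs C) => (hK v).1 hv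
  have hidx : ∀ i, i ≤ 2 * t → idx (f i) = i := fun i hi =>
    hinj _ _ (hidx1 _ (hfK i hi)) hi (hidx2 _ (hfK i hi))
  set φ : ℕ → ℕ := fun i => if i = 0 then 0 else if i % 2 = 1 then i + 1 else i - 1 with hφ
  have hφ1 : ∀ i, i ≤ 2 * t → φ i ≤ 2 * t := by
    intro i hi
    simp only [hφ]
    split_ifs <;> omega
  have hφ2 : ∀ i, φ (φ i) = i := by
    intro i
    have e0 : φ 0 = 0 := by simp [hφ]
    have e1 : ∀ k, φ (2 * k + 1) = 2 * k + 2 := by
      intro k
      simp only [hφ]
      rw [if_neg (by omega), if_pos (by omega)]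
    have e2 : ∀ k, φ (2 * k + 2) = 2 * k + 1 := by
      intro k
      simp only [hφ]
      rw [if_neg (by omega), if_neg (by omega)]
      omega
    rcases Nat.eq_zero_or_pos i with rfl | hpos
    · rw [e0, e0]
    · rcases Nat.even_or_odd' i with ⟨k, rfl | rfl⟩
      · obtain ⟨l, rfl⟩ : ∃ l, k = l + 1 := ⟨k - 1, by omega⟩
        rw [show 2 * (l + 1) = 2 * l + 2 by ring, e2, e1]
      · rw [e1, e2]
  have hφ3 : ∀ i, i ≤ 2 * t → i ≠ 0 → s(f i, f (φ i)) ∈ C := by
    intro i hi hi0
    simp only [hφ, if_neg hi0]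
    split_ifs with h1
    · exact hadj i hi
    · obtain ⟨k, rfl⟩ : ∃ k, i = k + 1 := ⟨i - 1, by omega⟩
      rw [Nat.add_sub_cancel, Sym2.eq_swap]
      exact hadj k (by omega)
  have hφ4 : ∀ i, i ≠ 0 → φ i ≠ i := by
    intro i hi
    simp only [hφ, if_neg hi]
    split_ifs <;> omega
  set ρ : V → V := fun v => if v ∈ vs C then f (φ (idx v)) else m v with hρ
  have hρ1 : ∀ v, v ∈ vs C → ρ v = f (φ (idx v)) := fun v hv => by simp only [hρ, if_pos hv]
  have hρ2 : ∀ v, v ∉ vs C → ρ v = m v := fun v hv => by simp only [hρ, if_neg hv]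
  have hidx0 : ∀ v, v ∈ vs C → v ≠ c → idx v ≠ 0 := by
    intro v hv hvc h0
    apply hvc
    rw [← hidx2 v hv, h0, hf0]
  have hρc : ρ c = c := by
    have h0 : idx c = 0 := by
      have := hidx 0 (by omega)
      rwa [hf0] at this
    rw [hρ1 c hc, h0]
    simp [hφ, hf0]
  have hρ3 : ∀ v, v ∈ vs C → v ≠ c → ρ v ≠ v := by
    intro v hv hvc h1
    rw [hρ1 v hv] at h1
    have h2 := hidx (φ (idx v)) (hφ1 _ (hidx1 v hv))
    rw [h1] at h2
    exact hφ4 _ (hidx0 v hv hvc) h2.symm
  have hρ4 : ∀ v, v ∈ vs C → v ≠ c → s(v, ρ v) ∈ C := by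
    intro v hv hvc
    have h1 := hφ3 _ (hidx1 v hv) (hidx0 v hv hvc)
    rw [hidx2 v hv] at h1
    rw [hρ1 v hv]
    exact h1
  have hmt : Mt G ρ := by
    refine ⟨fun v => ?_, fun v hv => ?_⟩
    · by_cases hvC : v ∈ vs C
      · rw [hρ1 v hvC, hρ1 _ (hfK _ (hφ1 _ (hidx1 v hvC))), hidx _ (hφ1 _ (hidx1 v hvC)), hφ2, hidx2 v hvC]
      · rw [hρ2 v hvC, hρ2 _ (by rw [h.map_vs_iff]; exact hvC), h.mx.1.inv]
    · by_cases hvC : v ∈ vs C
      · have hvc : v ≠ c := by
          rintro rfl
          exact hv hρc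
        exact hCG _ (hρ4 v hvC hvc)
      · rw [hρ2 v hvC] at hv ⊢
        exact h.mx.1.adj v hv
  have hfx : fxs ρ = insert c ((fxs m).erase b) := by
    ext v
    rw [mem_fxs, mem_insert, mem_erase, mem_fxs]
    by_cases hvC : v ∈ vs C
    · constructor
      · intro h1
        by_contra h2
        rw [not_or, not_and] at h2
        exact hρ3 v hvC h2.1 h1
      · rintro (rfl | ⟨h1, h2⟩)
        · exact hρc
        · exact absurd h2 (h.al v hvC h1).1
    · rw [hρ2 v hvC]
      have h1 : v ≠ c := fun h => hvC (h ▸ hc)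
      have h2 : v ≠ b := fun h' => hvC (h' ▸ h.mem)
      simp [h1, h2]
  have hcard : (fxs ρ).card = (fxs m).card := by
    have hb : b ∈ fxs m := by rw [mem_fxs]; exact h.fix
    rw [hfx, card_insert_of_notMem, card_erase_of_mem hb]
    · have := Finset.card_pos.2 ⟨b, hb⟩
      omega
    · rw [mem_erase, mem_fxs]
      rintro ⟨h1, h2⟩
      exact (h.al c hc h1).1 h2
  refine ⟨ρ, ⟨⟨hmt, fun m' hm' => hcard ▸ h.mx.2 m' hm'⟩, hc, hρc, fun v hv hvc => ⟨hρ3 v hv hvc, hρ4 v hv hvc⟩⟩,
    hρ2⟩

/-- an alternating path starting on the cycle and leaving it at once -/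
structure AltP (G : SimpleGraph V) (C : Finset (Sym2 V)) (m : V → V) (g : ℕ → V) (r : ℕ) : Prop where
  zero : g 0 ∈ vs C
  out : ∀ i, 1 ≤ i → i ≤ 2 * r → g i ∉ vs C
  inj : ∀ i j, i ≤ 2 * r → j ≤ 2 * r → g i = g j → i = j
  adj : ∀ i, i < 2 * r → G.Adj (g i) (g (i + 1))
  mat : ∀ j, j < r → m (g (2 * j + 1)) = g (2 * j + 2)

theorem AltP.mono {C : Finset (Sym2 V)} {m : V → V} {g : ℕ → V} {r r' : ℕ} (h : AltP G C m g r) (hr : r' ≤ r) :
    AltP G C m g r' :=
  ⟨h.zero, fun i h1 h2 => h.out i h1 (by omega), fun i j hi hj => h.inj i j (by omega) (by omega),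
    fun i hi => h.adj i (by omega), fun j hj => h.mat j (by omega)⟩

theorem AltP.sw {C : Finset (Sym2 V)} {m : V → V} {b : V} (hC : IsOddCycle G C) (h : TA G C m b)
    {g : ℕ → V} {r : ℕ} (hg : AltP G C m g r) :
    ∃ m', Mx G m' ∧ m' (g (2 * r)) = g (2 * r) ∧ (∀ j < r, m' (g (2 * j + 1)) = g (2 * j)) ∧
      (∀ v, v ∉ vs C → (∀ i ≤ 2 * r, v ≠ g i) → m' v = m v) ∧
      ∀ v ∈ vs C, v ≠ g 0 → m' v ≠ v ∧ s(v, m' v) ∈ C := by
  obtain ⟨m₁, h1, h2⟩ := h.rot hC hg.zero
  obtain ⟨m', h3, h4, h5, h6⟩ := h1.mx.path (f := g) r (fun i hi j hj => hg.inj i j hi hj) hg.adj h1.fix (by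
    intro j hj
    rw [h2 _ (hg.out _ (by omega) (by omega)), hg.mat j hj])
  refine ⟨m', h3, h4, h5, fun v hv hvi => ?_, fun v hv hv0 => ?_⟩
  · rw [h6 v hvi, h2 v hv]
  · have : m' v = m₁ v := by
      apply h6
      intro i hi
      rcases Nat.eq_zero_or_pos i with rfl | hpos
      · exact hv0
      · intro h
        exact hg.out i hpos hi (h ▸ hv)
    rw [this]
    exact h1.al v hv hv0

/-- walks from functions -/
theorem mkWalk (n : ℕ) : ∀ (f : ℕ → V), (∀ i < n, G.Adj (f i) (f (i + 1))) →
    ∃ P : G.Walk (f 0) (f n), P.length = n ∧ ∀ i ≤ n, P.getVert i = f i := by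
  induction n with
  | zero => intro f _; exact ⟨SimpleGraph.Walk.nil, rfl, fun i hi => by simp [Nat.le_zero.1 hi]⟩
  | succ n ih =>
    intro f hf
    obtain ⟨P, hP, hP'⟩ := ih (fun i => f (i + 1)) (fun i hi => hf (i + 1) (by omega))
    refine ⟨SimpleGraph.Walk.cons (hf 0 (by omega)) P, by simp [hP], fun i hi => ?_⟩
    cases i with
    | zero => simp
    | succ i =>
      rw [SimpleGraph.Walk.getVert_cons_succ]
      exact hP' i (by omega)

end Pool.Agent.H360_RD

namespace Pool.Agent.H360_RD
open Finset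
universe u
variable {V : Type u} [Fintype V] [DecidableEq V] {G : SimpleGraph V}

theorem reach_ta {C : Finset (Sym2 V)} {x : V} (hx : x ∈ reach G C) :
    ∃ m b, TA G C m b ∧ ∃ g r, AltP G C m g r ∧ (x ∈ vs C ∨ ∃ i ≤ 2 * r, g i = x) := by
  obtain ⟨M, b, u, c, P, hM, hcC, hbl, ⟨hP, ⟨s, hs⟩, hu, hch, hmeet⟩, hx⟩ := hx
  obtain ⟨m₀, hm₀, rfl⟩ := hM.exists_mx
  rw [hm₀.1.isBlossom_iff] at hbl
  obtain ⟨hc, -, hbl⟩ := hbl
  set f := P.getVert with hf
  have hs : P.length = 2 * s := by omega
  have hinj : ∀ i j, i ≤ 2 * s → j ≤ 2 * s → f i = f j → i = j := by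
    intro i j hi hj hij
    exact hP.getVert_injOn (by simp; omega) (by simp; omega) hij
  have hadj : ∀ i, i < 2 * s → G.Adj (f i) (f (i + 1)) := fun i hi => P.adj_getVert_succ (by omega)
  have hf0 : f 0 = u := by simp [hf]
  have hfs : f (2 * s) = b := by
    rw [← hs]
    exact P.getVert_length
  have halt : ∀ i, i < 2 * s → (s(f i, f (i + 1)) ∈ ed m₀ ↔ i % 2 = 1) := by
    intro i
    induction i with
    | zero =>
      intro _
      simp only [Nat.zero_mod]
      constructor
      · intro h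
        exact absurd (by rw [hf0]; exact Sym2.mem_mk_left _ _) (hu _ h)
      · intro h
        omega
    | succ i ih =>
      intro hi
      have h1 := List.isChain_iff_getElem.1 hch i (by simp; omega)
      rw [SimpleGraph.Walk.getElem_edges, SimpleGraph.Walk.getElem_edges] at h1
      have h2 := ih (by omega)
      rw [h1] at h2
      constructor
      · intro h
        by_contra hcon
        exact h2.2 (by omega) h
      · intro h
        by_contra hcon
        have := h2.1 hcon
        omega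
  have hmat : ∀ j < s, m₀ (f (2 * j + 1)) = f (2 * j + 2) := fun j hj =>
    (hm₀.1.mem_ed.1 ((halt (2 * j + 1) (by omega)).2 (by omega))).1
  have hu0 : m₀ (f 0) = f 0 := by
    by_contra hne
    exact hu s(f 0, m₀ (f 0)) (H360_RD.mem_ed.2 ⟨f 0, hne, rfl⟩) (by rw [hf0]; exact Sym2.mem_mk_left _ _)
  obtain ⟨m', h1, h2, h3, h4⟩ := hm₀.path (f := f) s (fun i hi j hj => hinj i j hi hj) hadj hu0 hmat
  have hsupp : ∀ i, f i ∈ vs C → i ≤ 2 * s → i = 2 * s := by
    intro i hi hle
    rw [← hcC, mem_vs_cycle hc] at hi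
    have := hmeet _ (P.getVert_mem_support i) hi
    exact hinj _ _ hle le_rfl (by rw [hfs]; exact this)
  have hbv : b ∈ vs C := by rw [← hcC, mem_vs_cycle hc]; simp
  refine ⟨m', b, ⟨h1, hbv, hfs ▸ h2, fun v hv hvb => ?_⟩, fun i => f (2 * s - i), s, ⟨?_, ?_, ?_, ?_, ?_⟩, ?_⟩
  · have : m' v = m₀ v := by
      apply h4
      rintro i hi rfl
      have := hsupp i hv hi
      rw [this] at hvb
      exact hvb hfs
    rw [this]
    rw [← hcC] at hv ⊢
    rw [mem_vs_cycle hc] at hv
    exact hbl v hv hvb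
  · simpa [hfs] using hbv
  · intro i hi1 hi2 hv
    have := hsupp _ hv (by omega)
    omega
  · intro i j hi hj hij
    have := hinj _ _ (by omega) (by omega) hij
    omega
  · intro i hi
    have := hadj (2 * s - i - 1) (by omega)
    rw [show 2 * s - i - 1 + 1 = 2 * s - i by omega] at this
    rw [show 2 * s - (i + 1) = 2 * s - i - 1 by omega]
    exact this.symm
  · intro j hj
    have := h3 (s - j - 1) (by omega)
    rw [show 2 * (s - j - 1) + 1 = 2 * s - (2 * j + 1) by omega,
      show 2 * (s - j - 1) = 2 * s - (2 * j + 2) by omega] at this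
    exact this
  · rcases hx with hx | hx
    · left
      rw [← hcC, mem_vs_cycle hc]
      exact hx
    · right
      obtain ⟨n, hn, hle⟩ := SimpleGraph.Walk.mem_support_iff_exists_getVert.1 hx
      refine ⟨2 * s - n, by omega, ?_⟩
      show f (2 * s - (2 * s - n)) = x
      rw [show 2 * s - (2 * s - n) = n by omega]
      exact hn

theorem AltP.mem_reach {C : Finset (Sym2 V)} (hC : IsOddCycle G C) {m : V → V} {b : V} (h : TA G C m b)
    {g : ℕ → V} {r : ℕ} (hg : AltP G C m g r) : (∀ i ≤ 2 * r, g i ∈ reach G C) ∧ ∀ v ∈ vs C, v ∈ reach G C := by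
  obtain ⟨m', h1, h2, h3, h4, h5⟩ := hg.sw hC h
  set f : ℕ → V := fun i => g (2 * r - i) with hf
  have hff : ∀ i, f i = g (2 * r - i) := fun i => rfl
  obtain ⟨P, hP1, hP2⟩ := mkWalk (G := G) (2 * r) f (by
    intro i hi
    have := hg.adj (2 * r - i - 1) (by omega)
    rw [show 2 * r - i - 1 + 1 = 2 * r - i by omega] at this
    rw [hff, hff, show 2 * r - (i + 1) = 2 * r - i - 1 by omega]
    exact this.symm)
  have hf2 : f (2 * r) = g 0 := by rw [hff, Nat.sub_self]
  obtain ⟨c, hc1, hc2, hc3⟩ := hC.at (c := f (2 * r)) (by rw [hf2]; exact hg.zero)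
  have hinj : ∀ i j, i ≤ 2 * r → j ≤ 2 * r → f i = f j → i = j := by
    intro i j hi hj hij
    have := hg.inj _ _ (by omega) (by omega) hij
    omega
  have hmat1 : ∀ k, 2 * k + 1 < 2 * r → m' (f (2 * k + 1)) = f (2 * k + 2) := by
    intro k hk
    have := h3 (r - k - 1) (by omega)
    rw [hff, hff, show 2 * r - (2 * k + 1) = 2 * (r - k - 1) + 1 by omega,
      show 2 * r - (2 * k + 2) = 2 * (r - k - 1) by omega]
    exact this
  have hkey : ∀ i, i < 2 * r → (s(f i, f (i + 1)) ∈ ed m' ↔ i % 2 = 1) := by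
    intro i hi
    rw [h1.1.mem_ed]
    rcases Nat.even_or_odd' i with ⟨k, rfl | rfl⟩
    · constructor
      · rintro ⟨h6, h7⟩
        exfalso
        rcases Nat.eq_zero_or_pos k with rfl | hk
        · apply h7
          rw [← h6]
          exact h2.symm
        · obtain ⟨l, rfl⟩ : ∃ l, k = l + 1 := ⟨k - 1, by omega⟩
          have h8 := hmat1 l (by omega)
          have h9 : m' (f (2 * l + 2)) = f (2 * l + 1) := by rw [← h8, h1.1.inv]
          rw [show 2 * (l + 1) = 2 * l + 2 by ring, h9] at h6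
          have := hinj _ _ (by omega) (by omega) h6
          omega
      · intro h6
        omega
    · constructor
      · intro _
        omega
      · intro _
        refine ⟨hmat1 k hi, fun h6 => ?_⟩
        have := hinj _ _ (by omega) (by omega) h6
        omega
  have key : ∀ x, (x ∈ c.support ∨ x ∈ P.support) → x ∈ reach G C := by
    intro x hx
    refine ⟨ed m', f (2 * r), f 0, c, P, h1.isMax, hc3, ?_, ⟨?_, ⟨r, by omega⟩, ?_, ?_, ?_⟩, hx⟩
    · rw [h1.1.isBlossom_iff]
      refine ⟨hc1, hc2, fun v hv hvb => ?_⟩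
      rw [hc3]
      apply h5 v _ (by rw [← hf2]; exact hvb)
      rw [← hc3, mem_vs_cycle hc1]
      exact hv
    · rw [← SimpleGraph.Walk.IsPath.getVert_injOn_iff]
      intro i hi j hj hij
      simp only [Set.mem_ofPred_eq, hP1] at hi hj
      rw [hP2 i hi, hP2 j hj] at hij
      exact hinj i j hi hj hij
    · intro e he hu
      obtain ⟨v, hv, rfl⟩ := H360_RD.mem_ed.1 he
      have h6 : m' (f 0) = f 0 := h2
      rcases Sym2.mem_iff.1 hu with h7 | h7
      · rw [← h7] at hv
        exact hv h6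
      · have : v = f 0 := by
          rw [← h1.1.inv v, ← h7, h6]
        rw [this] at hv
        exact hv h6
    · rw [List.isChain_iff_getElem]
      intro i hi
      rw [SimpleGraph.Walk.length_edges, hP1] at hi
      rw [SimpleGraph.Walk.getElem_edges, SimpleGraph.Walk.getElem_edges, hP2 _ (by omega), hP2 _ (by omega),
        hP2 _ (by omega), hkey i (by omega), hkey (i + 1) (by omega)]
      omega
    · intro v hv hvc
      obtain ⟨n, hn, hle⟩ := SimpleGraph.Walk.mem_support_iff_exists_getVert.1 hv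
      rw [hP1] at hle
      rw [hP2 n hle] at hn
      rw [← mem_vs_cycle hc1, hc3] at hvc
      rcases Nat.eq_zero_or_pos (2 * r - n) with h6 | h6
      · rw [← hn, hff, hff, h6, Nat.sub_self]
      · exact absurd (by rw [← hn, hff] at hvc; exact hvc) (hg.out (2 * r - n) h6 (by omega))
  refine ⟨fun i hi => key _ (Or.inr ?_), fun v hv => key _ (Or.inl ?_)⟩
  · rw [SimpleGraph.Walk.mem_support_iff_exists_getVert]
    refine ⟨2 * r - i, ?_, by omega⟩
    rw [hP2 _ (by omega), hff, show 2 * r - (2 * r - i) = i by omega]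
  · rw [← mem_vs_cycle hc1, hc3]
    exact hv

theorem AltP.nbr (hR : RDisjoint G) {C : Finset (Sym2 V)} (hC : IsOddCycle G C) {m : V → V} {b : V}
    (h : TA G C m b) {g : ℕ → V} {r : ℕ} (hg : AltP G C m g r) {z : V} (hz : G.Adj (g (2 * r)) z) :
    ∃ g' r', AltP G C m g' r' ∧ g' (2 * r') = m z := by
  classical
  by_cases hzC : z ∈ vs C
  · exact ⟨fun _ => m z, 0, ⟨h.map_vs hzC, fun i h1 h2 => by omega, fun i j hi hj _ => by omega,
      fun i hi => by omega, fun j hj => by omega⟩, rfl⟩
  obtain ⟨m', h1, h2, h3, h4, h5⟩ := hg.sw hC h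
  by_cases hzg : ∃ i ≤ 2 * r, z = g i
  · obtain ⟨i, hi, rfl⟩ := hzg
    have hi0 : i ≠ 0 := by
      rintro rfl
      exact hzC hg.zero
    rcases Nat.even_or_odd' i with ⟨k, rfl | rfl⟩
    · -- an even vertex: an odd cycle
      exfalso
      have hkr : k < r := by
        rcases Nat.lt_or_ge k r with h6 | h6
        · exact h6
        · have : k = r := by omega
          subst this
          exact absurd hz (G.loopless.irrefl _)
      set n := 2 * r - 2 * k with hn
      set f : ℕ → V := fun i => g (2 * r - i) with hf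
      have hff : ∀ i, f i = g (2 * r - i) := fun i => rfl
      have hinj : ∀ i j, i ≤ 2 * r → j ≤ 2 * r → f i = f j → i = j := by
        intro i j hi hj hij
        have := hg.inj _ _ (by omega) (by omega) hij
        omega
      obtain ⟨P, hP1, hP2⟩ := mkWalk (G := G) n f (by
        intro i hi
        have := hg.adj (2 * r - i - 1) (by omega)
        rw [show 2 * r - i - 1 + 1 = 2 * r - i by omega] at this
        rw [hff, hff, show 2 * r - (i + 1) = 2 * r - i - 1 by omega]
        exact this.symm)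
      have hfn : f n = g (2 * k) := by rw [hff]; congr 1; omega
      have hf0 : f 0 = g (2 * r) := rfl
      have hPp : P.IsPath := by
        rw [← SimpleGraph.Walk.IsPath.getVert_injOn_iff]
        intro i hi j hj hij
        simp only [Set.mem_ofPred_eq, hP1] at hi hj
        rw [hP2 i hi, hP2 j hj] at hij
        exact hinj i j (by omega) (by omega) hij
      have hadj : G.Adj (f 0) (f n) := by rw [hfn]; exact hz
      set c : G.Walk (f 0) (f 0) := SimpleGraph.Walk.cons hadj P.reverse with hc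
      have hPe : ∀ e, e ∈ P.edges ↔ ∃ i < n, s(f i, f (i + 1)) = e := by
        intro e
        induction e with
        | _ p q =>
          rw [SimpleGraph.Walk.mk_mem_edges_iff_exists, hP1]
          constructor
          · rintro ⟨i, hi, h6⟩
            exact ⟨i, hi, by rw [← h6, hP2 i (by omega), hP2 (i + 1) (by omega)]⟩
          · rintro ⟨i, hi, h6⟩
            exact ⟨i, hi, by rw [← h6, hP2 i (by omega), hP2 (i + 1) (by omega)]⟩
      have hcyc : c.IsCycle := by
        rw [hc, SimpleGraph.Walk.cons_isCycle_iff]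
        refine ⟨hPp.reverse, ?_⟩
        rw [SimpleGraph.Walk.edges_reverse, List.mem_reverse, hPe]
        rintro ⟨i, hi, h6⟩
        rw [Sym2.eq_iff] at h6
        rcases h6 with ⟨h7, h8⟩ | ⟨h7, h8⟩
        · have := hinj _ _ (by omega) (by omega) h7
          have := hinj _ _ (by omega) (by omega) h8
          omega
        · have := hinj _ _ (by omega) (by omega) h7
          omega
      have hlen : c.length = n + 1 := by simp [hc, hP1]
      have hodd : Odd c.length := ⟨r - k, by omega⟩
      have hce : ∀ e, e ∈ c.edges.toFinset ↔ e = s(f 0, f n) ∨ ∃ i < n, s(f i, f (i + 1)) = e := by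
        intro e
        rw [List.mem_toFinset, hc, SimpleGraph.Walk.edges_cons, List.mem_cons, SimpleGraph.Walk.edges_reverse,
          List.mem_reverse, hPe]
      have hcs : ∀ v, v ∈ c.support → ∃ i ≤ n, v = f i := by
        intro v hv
        rw [hc, SimpleGraph.Walk.support_cons, List.mem_cons, SimpleGraph.Walk.support_reverse,
          List.mem_reverse, SimpleGraph.Walk.mem_support_iff_exists_getVert] at hv
        rcases hv with rfl | ⟨i, hi, hle⟩
        · exact ⟨0, by omega, rfl⟩
        · rw [hP1] at hle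
          exact ⟨i, hle, by rw [← hi, hP2 i hle]⟩
      have hC' : IsOddCycle G c.edges.toFinset := ⟨_, c, hcyc, hodd, rfl⟩
      have hne : C ≠ c.edges.toFinset := by
        intro heq
        have h6 : s(f 0, f n) ∈ C := by
          rw [heq, hce]
          exact Or.inl rfl
        have h7 : f n ∈ vs C := by
          simp only [vs, mem_filter, mem_univ, true_and]
          exact ⟨_, h6, Sym2.mem_mk_right _ _⟩
        exact hg.out (2 * k) (by omega) (by omega) (hfn ▸ h7)
      have hx1 : g (2 * r) ∈ reach G C := (hg.mem_reach hC h).1 _ le_rfl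
      have hx2 : g (2 * r) ∈ reach G c.edges.toFinset := by
        refine ⟨ed m', f 0, f 0, c, SimpleGraph.Walk.nil, h1.isMax, rfl, ?_, ⟨?_, ?_, ?_, ?_, ?_⟩, Or.inr ?_⟩
        · rw [h1.1.isBlossom_iff]
          refine ⟨hcyc, hodd, fun v hv hv0 => ?_⟩
          obtain ⟨i, hi, rfl⟩ := hcs v hv
          have hi0' : i ≠ 0 := by
            rintro rfl
            exact hv0 rfl
          have hmat1 : ∀ k, 2 * k + 1 < 2 * r → m' (f (2 * k + 1)) = f (2 * k + 2) := by
            intro k hk
            have := h3 (r - k - 1) (by omega)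
            rw [hff, hff, show 2 * r - (2 * k + 1) = 2 * (r - k - 1) + 1 by omega,
              show 2 * r - (2 * k + 2) = 2 * (r - k - 1) by omega]
            exact this
          rcases Nat.even_or_odd' i with ⟨l, rfl | rfl⟩
          · obtain ⟨l, rfl⟩ : ∃ l', l = l' + 1 := ⟨l - 1, by omega⟩
            have h8 := hmat1 l (by omega)
            have h9 : m' (f (2 * (l + 1))) = f (2 * l + 1) := by
              rw [show 2 * (l + 1) = 2 * l + 2 by ring, ← h8, h1.1.inv]
            rw [h9]
            refine ⟨fun h10 => ?_, ?_⟩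
            · have := hinj _ _ (by omega) (by omega) h10
              omega
            · rw [hce]
              right
              exact ⟨2 * l + 1, by omega, by rw [Sym2.eq_swap]; rfl⟩
          · have h8 := hmat1 l (by omega)
            rw [h8]
            refine ⟨fun h10 => ?_, ?_⟩
            · have := hinj _ _ (by omega) (by omega) h10
              omega
            · rw [hce]
              right
              exact ⟨2 * l + 1, by omega, rfl⟩
        · exact SimpleGraph.Walk.IsPath.nil
        · simp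
        · intro e he hu
          obtain ⟨v, hv, rfl⟩ := H360_RD.mem_ed.1 he
          have h6 : m' (f 0) = f 0 := h2
          rcases Sym2.mem_iff.1 hu with h7 | h7
          · rw [← h7] at hv
            exact hv h6
          · have : v = f 0 := by
              rw [← h1.1.inv v, ← h7, h6]
            rw [this] at hv
            exact hv h6
        · simp
        · intro v hv _
          simpa using hv
        · simp [hf0]
      exact Set.disjoint_left.1 (hR.2.2 C _ hC hC' hne) hx1 hx2
    · -- an odd vertex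
      exact ⟨g, k + 1, hg.mono (by omega), by rw [hg.mat k (by omega)]; rfl⟩
  · -- a new vertex
    have hzg' : ∀ i ≤ 2 * r, z ≠ g i := fun i hi h6 => hzg ⟨i, hi, h6⟩
    have hmz : m' z = m z := h4 z hzC hzg'
    have hmz2 : m z ≠ z := by
      rw [← hmz]
      exact h1.ne h2 hz
    have hmzC : m z ∉ vs C := by rw [h.map_vs_iff]; exact hzC
    have hmzg : ∀ i ≤ 2 * r, m z ≠ g i := by
      intro i hi h6
      rcases Nat.eq_zero_or_pos i with rfl | hi0
      · exact hmzC (h6 ▸ hg.zero)
      · rcases Nat.even_or_odd' i with ⟨k, rfl | rfl⟩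
        · obtain ⟨k, rfl⟩ : ∃ k', k = k' + 1 := ⟨k - 1, by omega⟩
          have h7 := hg.mat k (by omega)
          have h8 : z = g (2 * k + 1) := by
            rw [← h.mx.1.inv z, h6, show 2 * (k + 1) = 2 * k + 2 by ring, ← h7, h.mx.1.inv]
          exact hzg' _ (by omega) h8
        · have h7 := hg.mat k (by omega)
          have h8 : z = g (2 * k + 2) := by
            rw [← h.mx.1.inv z, h6, h7]
          exact hzg' _ (by omega) h8
    set g' : ℕ → V := fun i => if i ≤ 2 * r then g i else if i = 2 * r + 1 then z else m z with hg'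
    have e1 : ∀ i, i ≤ 2 * r → g' i = g i := fun i hi => by simp only [hg', if_pos hi]
    have e2 : g' (2 * r + 1) = z := by
      show (if 2 * r + 1 ≤ 2 * r then g (2 * r + 1) else if 2 * r + 1 = 2 * r + 1 then z else m z) = z
      rw [if_neg (by omega), if_pos rfl]
    have e3 : g' (2 * r + 2) = m z := by
      show (if 2 * r + 2 ≤ 2 * r then g (2 * r + 2) else if 2 * r + 2 = 2 * r + 1 then z else m z) = m z
      rw [if_neg (by omega), if_neg (by omega)]
    refine ⟨g', r + 1, ⟨?_, ?_, ?_, ?_, ?_⟩, e3⟩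
    · rw [e1 0 (by omega)]; exact hg.zero
    · intro i hi1 hi2
      rcases Nat.lt_or_ge (2 * r) i with h6 | h6
      · rcases Nat.lt_or_ge (2 * r + 1) i with h7 | h7
        · rw [show i = 2 * r + 2 by omega, e3]; exact hmzC
        · rw [show i = 2 * r + 1 by omega, e2]; exact hzC
      · rw [e1 i h6]; exact hg.out i hi1 h6
    · intro i j hi hj hij
      have key : ∀ i, i ≤ 2 * (r + 1) → i ≤ 2 * r ∨ i = 2 * r + 1 ∨ i = 2 * r + 2 := by intro i hi; omega
      rcases key i hi with hi | rfl | rfl <;> rcases key j hj with hj | rfl | rfl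
      · rw [e1 i hi, e1 j hj] at hij
        exact hg.inj i j hi hj hij
      · rw [e1 i hi, e2] at hij
        exact absurd hij.symm (hzg' i hi)
      · rw [e1 i hi, e3] at hij
        exact absurd hij.symm (hmzg i hi)
      · rw [e1 j hj, e2] at hij
        exact absurd hij (hzg' j hj)
      · rfl
      · rw [e2, e3] at hij
        exact absurd hij.symm hmz2
      · rw [e1 j hj, e3] at hij
        exact absurd hij (hmzg j hj)
      · rw [e2, e3] at hij
        exact absurd hij hmz2
      · rfl
    · intro i hi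
      rcases Nat.lt_or_ge i (2 * r) with h6 | h6
      · rw [e1 i (by omega), e1 (i + 1) (by omega)]
        exact hg.adj i h6
      · rcases Nat.lt_or_ge (2 * r) i with h7 | h7
        · rw [show i = 2 * r + 1 by omega, e2, e3]
          exact h.mx.1.adj z hmz2
        · rw [show i = 2 * r by omega, e1 _ le_rfl, e2]
          exact hz
    · intro j hj
      rcases Nat.lt_or_ge j r with h6 | h6
      · rw [e1 _ (by omega), e1 _ (by omega)]
        exact hg.mat j h6
      · rw [show j = r by omega, e2, e3]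

end Pool.Agent.H360_RD

namespace Pool.Agent.H360_RD
open Finset
universe u
variable {V : Type u} [Fintype V] [DecidableEq V] {G : SimpleGraph V}

theorem even_of_inv {T : Finset V} {μ : V → V} (h1 : ∀ v ∈ T, μ v ∈ T) (h2 : ∀ v ∈ T, μ v ≠ v)
    (h3 : ∀ v ∈ T, μ (μ v) = v) : Even T.card := by
  have h : ∑ x ∈ T, (1 : ZMod 2) = 0 := by
    refine Finset.sum_involution (fun v _ => μ v) ?_ ?_ ?_ ?_
    · intro a _; decide
    · intro a ha _; exact h2 a ha
    · intro a ha; exact h1 a ha
    · intro a ha; exact h3 a ha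
  rw [Finset.sum_const, nsmul_eq_mul, mul_one] at h
  exact (ZMod.natCast_eq_zero_iff_even).1 h

theorem iff_of_inj {X : Finset V} {f : V → V} (hf : Function.Injective f) (h : ∀ x ∈ X, f x ∈ X) (x : V) :
    f x ∈ X ↔ x ∈ X := by
  refine ⟨fun hx => ?_, h x⟩
  have h1 : X.image f = X := by
    apply Finset.eq_of_subset_of_card_le
    · intro y hy
      obtain ⟨z, hz, rfl⟩ := mem_image.1 hy
      exact h z hz
    · rw [card_image_of_injective _ hf]
  rw [← h1] at hx
  obtain ⟨z, hz, h2⟩ := mem_image.1 hx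
  rw [← hf h2]
  exact hz

open Classical in
/-- even vertices -/
noncomputable def XS (G : SimpleGraph V) (C : Finset (Sym2 V)) (m : V → V) : Finset V :=
  univ.filter (fun x => ∃ g r, AltP G C m g r ∧ g (2 * r) = x)

theorem mem_XS {C : Finset (Sym2 V)} {m : V → V} {x : V} :
    x ∈ XS G C m ↔ ∃ g r, AltP G C m g r ∧ g (2 * r) = x := by simp [XS]

theorem vs_sub {C : Finset (Sym2 V)} {m : V → V} {x : V} (hx : x ∈ vs C) : x ∈ XS G C m :=
  mem_XS.2 ⟨fun _ => x, 0, ⟨hx, fun i h1 h2 => by omega, fun i j hi hj _ => by omega,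
      fun i hi => by omega, fun j hj => by omega⟩, rfl⟩

theorem XS_nbr (hR : RDisjoint G) {C : Finset (Sym2 V)} (hC : IsOddCycle G C) {m : V → V} {b : V}
    (h : TA G C m b) {x z : V} (hx : x ∈ XS G C m) (hz : G.Adj x z) : m z ∈ XS G C m := by
  obtain ⟨g, r, hg, rfl⟩ := mem_XS.1 hx
  exact mem_XS.2 (hg.nbr hR hC h hz)

theorem XS_fix {C : Finset (Sym2 V)} {m : V → V} {b : V} (h : TA G C m b) {x : V} (hx : x ∈ XS G C m)
    (hf : m x = x) : x = b := by
  obtain ⟨g, r, hg, rfl⟩ := mem_XS.1 hx
  rcases Nat.eq_zero_or_pos r with rfl | hr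
  · by_contra hb
    exact (h.al _ hg.zero hb).1 hf
  · exfalso
    have h1 := hg.mat (r - 1) (by omega)
    rw [show 2 * (r - 1) + 2 = 2 * r by omega, show 2 * (r - 1) + 1 = 2 * r - 1 by omega] at h1
    have h2 : m (g (2 * r)) = g (2 * r - 1) := by rw [← h1, h.mx.1.inv]
    rw [h2] at hf
    have := hg.inj _ _ (by omega) (by omega) hf
    omega

/-- all the vertices -/
def inS (G : SimpleGraph V) (C : Finset (Sym2 V)) (m : V → V) (v : V) : Prop := v ∈ XS G C m ∨ m v ∈ XS G C m

theorem inS_map {C : Finset (Sym2 V)} {m : V → V} {b : V} (h : TA G C m b) {v : V} (hv : inS G C m v) :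
    inS G C m (m v) := by
  rcases hv with hv | hv
  · right; rw [h.mx.1.inv]; exact hv
  · left; exact hv

theorem inS_fix {C : Finset (Sym2 V)} {m : V → V} {b : V} (h : TA G C m b) {v : V} (hv : inS G C m v)
    (hf : m v = v) : v = b := by
  rcases hv with hv | hv
  · exact XS_fix h hv hf
  · rw [hf] at hv
    exact XS_fix h hv hf

theorem inS_reach {C : Finset (Sym2 V)} (hC : IsOddCycle G C) {m : V → V} {b : V} (h : TA G C m b) {v : V}
    (hv : inS G C m v) : v ∈ reach G C := by
  rcases hv with hv | hv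
  · obtain ⟨g, r, hg, rfl⟩ := mem_XS.1 hv
    exact (hg.mem_reach hC h).1 _ le_rfl
  · obtain ⟨g, r, hg, hgr⟩ := mem_XS.1 hv
    rcases Nat.eq_zero_or_pos r with rfl | hr
    · apply (hg.mem_reach hC h).2
      rw [← h.map_vs_iff, ← hgr]
      exact hg.zero
    · have h1 := hg.mat (r - 1) (by omega)
      rw [show 2 * (r - 1) + 2 = 2 * r by omega, show 2 * (r - 1) + 1 = 2 * r - 1 by omega, hgr] at h1
      have h2 : g (2 * r - 1) = v := by rw [← h.mx.1.inv (g (2 * r - 1)), h1, h.mx.1.inv]
      rw [← h2]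
      exact (hg.mem_reach hC h).1 _ (by omega)

theorem inS_perm (hR : RDisjoint G) {C : Finset (Sym2 V)} (hC : IsOddCycle G C) {m : V → V} {b : V}
    (h : TA G C m b) (σ : Equiv.Perm V) (hσ : ∀ v, G.Adj v (σ v)) (v : V) :
    inS G C m (σ v) ↔ inS G C m v := by
  have hmi : Function.Injective m := fun a b hab => by rw [← h.mx.1.inv a, hab, h.mx.1.inv]
  have h1 : ∀ x, m (σ x) ∈ XS G C m ↔ x ∈ XS G C m := by
    intro x
    exact iff_of_inj (f := fun x => m (σ x)) (hmi.comp σ.injective) (fun x hx => XS_nbr hR hC h hx (hσ x)) x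
  have h2 : ∀ x, m (σ.symm x) ∈ XS G C m ↔ x ∈ XS G C m := by
    intro x
    refine iff_of_inj (f := fun x => m (σ.symm x)) (hmi.comp σ.symm.injective)
      (fun x hx => XS_nbr hR hC h hx ?_) x
    have := hσ (σ.symm x)
    rw [Equiv.apply_symm_apply] at this
    exact this.symm
  have h3 := h2 (σ v)
  rw [Equiv.symm_apply_apply] at h3
  unfold inS
  rw [h1, ← h3]
  exact or_comm

theorem exists_fix (hR : RDisjoint G) {C : Finset (Sym2 V)} (hC : IsOddCycle G C) {m : V → V} {b : V}
    (h : TA G C m b) {m' : V → V} (hm' : Mt G m') : ∃ x ∈ XS G C m, m' x = x := by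
  classical
  by_contra hcon
  push Not at hcon
  have hmi : Function.Injective m := fun a b hab => by rw [← h.mx.1.inv a, hab, h.mx.1.inv]
  have hmi' : Function.Injective m' := fun a b hab => by rw [← hm'.inv a, hab, hm'.inv]
  have h1 : ∀ x, m (m' x) ∈ XS G C m ↔ x ∈ XS G C m := by
    intro x
    exact iff_of_inj (f := fun x => m (m' x)) (hmi.comp hmi')
      (fun x hx => XS_nbr hR hC h hx (hm'.adj x (hcon x hx))) x
  set T : Finset V := univ.filter (fun v => inS G C m v) with hT
  have hTm : ∀ v, v ∈ T ↔ inS G C m v := by intro v; simp [hT]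
  have h2 : Even T.card := by
    have hkey : ∀ v ∈ T, inS G C m (m' v) := by
      intro v hv
      rw [hTm] at hv
      rcases hv with hv | hv
      · right
        exact (h1 v).2 hv
      · left
        rw [← h1, hm'.inv]
        exact hv
    refine even_of_inv (μ := m') (fun v hv => (hTm _).2 (hkey v hv)) (fun v hv hf => ?_) (fun v _ => hm'.inv v)
    rw [hTm] at hv
    rcases hv with hv | hv
    · exact hcon v hv hf
    · have : m' v ∈ XS G C m := by
        rw [← h1, hm'.inv]
        exact hv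
      rw [hf] at this
      exact hcon v this hf
  have hb : b ∈ T := (hTm b).2 (Or.inl (vs_sub h.mem))
  have h3 : Even (T.erase b).card := by
    refine even_of_inv (μ := m) (fun v hv => ?_) (fun v hv hf => ?_) (fun v _ => h.mx.1.inv v)
    · rw [mem_erase, hTm] at hv ⊢
      refine ⟨fun h4 => hv.1 ?_, inS_map h hv.2⟩
      rw [← h.mx.1.inv v, h4, h.fix]
    · rw [mem_erase, hTm] at hv
      exact hv.1 (inS_fix h hv.2 hf)
  rw [card_erase_of_mem hb] at h3
  have h4 := Finset.card_pos.2 ⟨b, hb⟩
  rcases h2 with ⟨a, ha⟩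
  rcases h3 with ⟨c, hc⟩
  omega

theorem inS_sub (hR : RDisjoint G) {C : Finset (Sym2 V)} (hC : IsOddCycle G C) {m : V → V} {b : V}
    (h : TA G C m b) {m' : V → V} {b' : V} (h' : TA G C m' b')
    (hfix : ∀ x ∈ XS G C m, m' x = x → x = b') {v : V} (hv : inS G C m' v) : inS G C m v := by
  have hmi : Function.Injective m := fun a b hab => by rw [← h.mx.1.inv a, hab, h.mx.1.inv]
  have hmi' : Function.Injective m' := fun a b hab => by rw [← h'.mx.1.inv a, hab, h'.mx.1.inv]
  have h1 : ∀ x, m (m' x) ∈ XS G C m ↔ x ∈ XS G C m := by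
    intro x
    refine iff_of_inj (f := fun x => m (m' x)) (hmi.comp hmi') (fun x hx => ?_) x
    by_cases hx' : m' x = x
    · show m (m' x) ∈ _
      rw [hx', hfix x hx hx']
      exact vs_sub (h.map_vs h'.mem)
    · exact XS_nbr hR hC h hx (h'.mx.1.adj x hx')
  have h2 : ∀ x, x ∈ XS G C m' → x ∈ XS G C m := by
    intro x hx
    obtain ⟨g, r, hg, rfl⟩ := mem_XS.1 hx
    have : ∀ i, i ≤ r → g (2 * i) ∈ XS G C m := by
      intro i
      induction i with
      | zero => intro _; exact vs_sub hg.zero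
      | succ i ih =>
        intro hi
        have h3 := XS_nbr hR hC h (ih (by omega)) (hg.adj (2 * i) (by omega))
        have h4 := hg.mat i (by omega)
        rw [show 2 * (i + 1) = 2 * i + 2 by ring, ← h4, ← h1, h'.mx.1.inv]
        exact h3
    exact this r le_rfl
  rcases hv with hv | hv
  · exact Or.inl (h2 v hv)
  · right
    have h3 := h2 _ hv
    rw [← h1, h'.mx.1.inv] at h3
    exact h3

theorem bypass_parity {W : Type u} [DecidableEq W] {H : SimpleGraph W}
    (hH : ∀ (v : W) (c : H.Walk v v), c.IsCycle → Even c.length) {a b : W} (p : H.Walk a b) :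
    p.length % 2 = p.bypass.length % 2 := by
  induction p with
  | nil => rfl
  | @cons a a' b hadj p ih =>
    simp only [SimpleGraph.Walk.bypass, SimpleGraph.Walk.length_cons]
    split_ifs with hs
    · have hqp : p.bypass.IsPath := p.bypass_isPath
      have h1 := congrArg SimpleGraph.Walk.length (p.bypass.take_spec hs)
      rw [SimpleGraph.Walk.length_append] at h1
      have h2 : Even ((p.bypass.takeUntil a hs).length + 1) := by
        by_cases he : s(a, a') ∈ (p.bypass.takeUntil a hs).edges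
        · have hpt : (p.bypass.takeUntil a hs).IsPath := hqp.takeUntil hs
          generalize p.bypass.takeUntil a hs = t at he hpt
          cases t with
          | nil => simp at he
          | @cons _ d _ h3 t' =>
            rw [SimpleGraph.Walk.cons_isPath_iff] at hpt
            rw [SimpleGraph.Walk.edges_cons, List.mem_cons] at he
            rcases he with he | he
            · rw [Sym2.eq_iff] at he
              rcases he with ⟨h4, h5⟩ | ⟨h4, _⟩
              · exact absurd h4 hadj.ne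
              · subst h4
                have : t' = SimpleGraph.Walk.nil := by
                  exact SimpleGraph.Walk.isPath_iff_eq_nil.1 hpt.1
                subst this
                exact ⟨1, rfl⟩
            · exact absurd (t'.snd_mem_support_of_mem_edges he) hpt.2
        · have h3 : (SimpleGraph.Walk.cons hadj (p.bypass.takeUntil a hs)).IsCycle := by
            rw [SimpleGraph.Walk.cons_isCycle_iff]
            exact ⟨hqp.takeUntil hs, he⟩
          simpa using hH _ _ h3
      rcases h2 with ⟨k, hk⟩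
      omega
    · rw [SimpleGraph.Walk.length_cons]
      omega

theorem colorable_of_no_odd {W : Type u} {H : SimpleGraph W}
    (hH : ∀ (v : W) (c : H.Walk v v), c.IsCycle → Even c.length) : H.Colorable 2 := by
  classical
  rw [SimpleGraph.two_colorable_iff_forall_loop_even]
  intro u w
  have h1 := bypass_parity hH w
  have h2 : w.bypass = SimpleGraph.Walk.nil := SimpleGraph.Walk.isPath_iff_eq_nil.1 w.bypass_isPath
  rw [h2, SimpleGraph.Walk.length_nil] at h1
  exact Nat.even_iff.2 h1

end Pool.Agent.H360_RD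

namespace Pool.Agent.H360_RD
open Finset
universe u
variable {V : Type u} [Fintype V] [DecidableEq V] {G : SimpleGraph V}

theorem exists_ta (hR : RDisjoint G) {C : Finset (Sym2 V)} (hC : IsOddCycle G C) : ∃ m b, TA G C m b := by
  obtain ⟨x, hx⟩ := hR.2.1 C hC
  obtain ⟨m, b, h, -⟩ := reach_ta hx
  exact ⟨m, b, h⟩

theorem perm_inv (hR : RDisjoint G) (σ : Equiv.Perm V) (hσ : ∀ v, G.Adj v (σ v)) {C₀ : Finset (Sym2 V)}
    (hC₀ : IsOddCycle G C₀) (v₀ : V) : σ v₀ ∈ reach G C₀ ↔ v₀ ∈ reach G C₀ := by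
  classical
  have : Nonempty V := ⟨v₀⟩
  choose! mm bb hTA using fun C (hC : IsOddCycle G C) => exists_ta hR hC
  set S : Finset (Sym2 V) → V → Prop := fun C v => inS G C (mm C) v with hS
  have hSr : ∀ C, IsOddCycle G C → ∀ v, S C v → v ∈ reach G C := fun C hC v hv => inS_reach hC (hTA C hC) hv
  have hdisj : ∀ C C' v, IsOddCycle G C → IsOddCycle G C' → S C v → S C' v → C = C' := by
    intro C C' v hC hC' hv hv'
    by_contra hne
    exact Set.disjoint_left.1 (hR.2.2 C C' hC hC' hne) (hSr C hC v hv) (hSr C' hC' v hv')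
  have hSσ : ∀ C, IsOddCycle G C → ∀ v, S C (σ v) ↔ S C v := fun C hC v => inS_perm hR hC (hTA C hC) σ hσ v
  -- the rest is bipartite
  set T : Set V := {v | ∀ C, IsOddCycle G C → ¬ S C v} with hT
  have hTσ : ∀ v, v ∈ T → σ v ∈ T := fun v hv C hC h => hv C hC ((hSσ C hC v).1 h)
  have hTσ' : ∀ v, v ∈ T → σ.symm v ∈ T := by
    intro v hv C hC h
    rw [← hSσ C hC, Equiv.apply_symm_apply] at h
    exact hv C hC h
  obtain ⟨col⟩ : (G.induce T).Colorable 2 := by
    apply colorable_of_no_odd
    intro v c hc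
    by_contra hcon
    rw [Nat.not_even_iff_odd] at hcon
    have h1 : (c.map (SimpleGraph.Embedding.induce (G := G) T).toHom).IsCycle :=
      hc.map Subtype.val_injective
    have h2 : IsOddCycle G (c.map (SimpleGraph.Embedding.induce (G := G) T).toHom).edges.toFinset :=
      ⟨_, _, h1, by rw [SimpleGraph.Walk.length_map]; exact hcon, rfl⟩
    refine v.2 _ h2 (Or.inl (vs_sub ?_))
    rw [mem_vs_cycle h1]
    exact SimpleGraph.Walk.start_mem_support _
  set ms : V → V := fun v => if h : ∃ C, IsOddCycle G C ∧ S C v then mm h.choose v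
    else if col ⟨v, fun C hC hv => h ⟨C, hC, hv⟩⟩ = 0 then σ v else σ.symm v with hms
  have ms1 : ∀ C v, IsOddCycle G C → S C v → ms v = mm C v := by
    intro C v hC hv
    have hex : ∃ C, IsOddCycle G C ∧ S C v := ⟨C, hC, hv⟩
    simp only [hms, dif_pos hex]
    rw [hdisj _ C v hex.choose_spec.1 hC hex.choose_spec.2 hv]
  have ms2 : ∀ v (hv : v ∈ T), col ⟨v, hv⟩ = 0 → ms v = σ v := by
    intro v hv h0
    have hex : ¬ ∃ C, IsOddCycle G C ∧ S C v := fun ⟨C, hC, h⟩ => hv C hC h
    simp only [hms, dif_neg hex]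
    rw [if_pos h0]
  have ms3 : ∀ v (hv : v ∈ T), col ⟨v, hv⟩ ≠ 0 → ms v = σ.symm v := by
    intro v hv h0
    have hex : ¬ ∃ C, IsOddCycle G C ∧ S C v := fun ⟨C, hC, h⟩ => hv C hC h
    simp only [hms, dif_neg hex]
    rw [if_neg h0]
  have hcol : ∀ v (hv : v ∈ T), col ⟨v, hv⟩ ≠ col ⟨σ v, hTσ v hv⟩ := fun v hv => col.valid (hσ v)
  have hmst : Mt G ms := by
    refine ⟨fun v => ?_, fun v hv => ?_⟩
    · by_cases hex : ∃ C, IsOddCycle G C ∧ S C v
      · obtain ⟨C, hC, hv⟩ := hex
        rw [ms1 C v hC hv, ms1 C _ hC (inS_map (hTA C hC) hv), (hTA C hC).mx.1.inv]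
      · have hv : v ∈ T := fun C hC h => hex ⟨C, hC, h⟩
        by_cases h0 : col ⟨v, hv⟩ = 0
        · have h1 := hcol v hv
          rw [h0] at h1
          rw [ms2 v hv h0, ms3 _ (hTσ v hv) (fun h => h1 h.symm), Equiv.symm_apply_apply]
        · have h1 := hcol (σ.symm v) (hTσ' v hv)
          have h2 : col ⟨σ (σ.symm v), hTσ _ (hTσ' v hv)⟩ = col ⟨v, hv⟩ := by
            congr 1
            exact Subtype.ext (σ.apply_symm_apply v)
          rw [h2] at h1
          have h3 : col ⟨σ.symm v, hTσ' v hv⟩ = 0 := by omega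
          rw [ms3 v hv h0, ms2 _ (hTσ' v hv) h3, Equiv.apply_symm_apply]
    · by_cases hex : ∃ C, IsOddCycle G C ∧ S C v
      · obtain ⟨C, hC, hv'⟩ := hex
        rw [ms1 C v hC hv'] at hv ⊢
        exact (hTA C hC).mx.1.adj v hv
      · have hv : v ∈ T := fun C hC h => hex ⟨C, hC, h⟩
        by_cases h0 : col ⟨v, hv⟩ = 0
        · rw [ms2 v hv h0]
          exact hσ v
        · rw [ms3 v hv h0]
          have := hσ (σ.symm v)
          rw [Equiv.apply_symm_apply] at this
          exact this.symm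
  set 𝒞 : Finset (Finset (Sym2 V)) := univ.filter (fun C => IsOddCycle G C) with h𝒞
  have hm𝒞 : ∀ C, C ∈ 𝒞 ↔ IsOddCycle G C := fun C => by simp [h𝒞]
  have hcard : (fxs ms).card ≤ 𝒞.card := by
    have : fxs ms ⊆ 𝒞.image bb := by
      intro v hv
      rw [mem_fxs] at hv
      by_cases hex : ∃ C, IsOddCycle G C ∧ S C v
      · obtain ⟨C, hC, hv'⟩ := hex
        rw [ms1 C v hC hv'] at hv
        exact mem_image.2 ⟨C, (hm𝒞 C).2 hC, (inS_fix (hTA C hC) hv' hv).symm⟩
      · exfalso
        have hvT : v ∈ T := fun C hC h => hex ⟨C, hC, h⟩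
        by_cases h0 : col ⟨v, hvT⟩ = 0
        · rw [ms2 v hvT h0] at hv
          exact (hσ v).ne hv.symm
        · rw [ms3 v hvT h0] at hv
          have := hσ (σ.symm v)
          rw [Equiv.apply_symm_apply] at this
          exact this.ne hv
    exact (card_le_card this).trans card_image_le
  have huniq : ∀ m', Mx G m' → ∀ C, IsOddCycle G C → ∀ x ∈ XS G C (mm C), ∀ x' ∈ XS G C (mm C),
      m' x = x → m' x' = x' → x = x' := by
    intro m' hm' C hC x hx x' hx' hfx hfx'
    by_contra hne
    choose! e he1 he2 using fun C (hC : IsOddCycle G C) => exists_fix hR hC (hTA C hC) hm'.1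
    have hXS : ∀ C v, v ∈ XS G C (mm C) → S C v := fun C v hv => Or.inl hv
    obtain ⟨y, hy, hfy, hye⟩ : ∃ y ∈ XS G C (mm C), m' y = y ∧ y ≠ e C := by
      by_cases h1 : x = e C
      · exact ⟨x', hx', hfx', fun h2 => hne (h1.trans h2.symm)⟩
      · exact ⟨x, hx, hfx, h1⟩
    have h1 : insert y (𝒞.image e) ⊆ fxs m' := by
      intro v hv
      rw [mem_fxs]
      rcases mem_insert.1 hv with rfl | hv
      · exact hfy
      · obtain ⟨C', hC', rfl⟩ := mem_image.1 hv
        exact he2 C' ((hm𝒞 C').1 hC')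
    have h2 : (insert y (𝒞.image e)).card = 𝒞.card + 1 := by
      rw [card_insert_of_notMem, card_image_of_injOn]
      · intro C1 h1 C2 h2 h12
        rw [mem_coe, hm𝒞] at h1 h2
        have h3 := hXS _ _ (he1 C1 h1)
        have h4 := hXS _ _ (he1 C2 h2)
        rw [← h12] at h4
        exact hdisj C1 C2 _ h1 h2 h3 h4
      · intro h
        obtain ⟨C', hC', h3⟩ := mem_image.1 h
        rw [hm𝒞] at hC'
        have h4 := hXS _ _ (he1 C' hC')
        rw [h3] at h4
        have := hdisj C C' y hC hC' (hXS _ _ hy) h4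
        subst this
        exact hye h3.symm
    have h3 := card_le_card h1
    have h4 := hm'.2 ms hmst
    omega
  have hreach : ∀ v, v ∈ reach G C₀ ↔ S C₀ v := by
    intro v
    refine ⟨fun hv => ?_, hSr C₀ hC₀ v⟩
    obtain ⟨m', b', h', g, r, hg, hv⟩ := reach_ta hv
    refine inS_sub hR hC₀ (hTA C₀ hC₀) h' (fun x hx hfx => ?_) ?_
    · exact huniq m' h'.mx C₀ hC₀ x hx b' (vs_sub h'.mem) hfx h'.fix
    · rcases hv with hv | ⟨i, hi, rfl⟩
      · exact Or.inl (vs_sub hv)
      · rcases Nat.even_or_odd' i with ⟨k, rfl | rfl⟩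
        · exact Or.inl (mem_XS.2 ⟨g, k, hg.mono (by omega), rfl⟩)
        · right
          rw [hg.mat k (by omega)]
          exact mem_XS.2 ⟨g, k + 1, hg.mono (by omega), rfl⟩
  rw [hreach, hreach]
  exact hSσ C₀ hC₀ v₀

theorem block_det {κ : Type*} [DecidableEq κ] (P : V → κ) (k : κ) (s : Set V) (hs : ∀ v, P v = k ↔ v ∈ s)
    [DecidableRel G.Adj] [Fintype s] [DecidableEq s] [DecidableRel (G.induce s).Adj] :
    ((Matrix.of fun i j => if P i = P j then G.adjMatrix ℝ i j else 0 : Matrix V V ℝ).toSquareBlock P k).det =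
      ((G.induce s).adjMatrix ℝ).det := by
  set e : {a // P a = k} ≃ s := Equiv.subtypeEquivRight hs with he
  rw [← Matrix.det_submatrix_equiv_self e]
  congr 1
  ext i j
  have h : P i.1 = P j.1 := by rw [i.2, j.2]
  simp only [Matrix.toSquareBlock_def, Matrix.of_apply, Matrix.submatrix_apply, SimpleGraph.adjMatrix_apply, h,
    if_true]
  exact if_congr Iff.rfl rfl rfl

end Pool.Agent.H360_RD
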